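import Pool.Agent.L7h83.GK.Stm

set_option autoImplicit false
set_option linter.unusedSectionVars false

/-!
# Project GK (MP_5dc923_co), part ST1: splitting off two half-edges with different values
-/

namespace Pool.Agent.L7h73.GK

open Finset
open Pool.Agent.H126R2.CDC (T3 IsFl excess MGraph lab f2_eq_of_add)
open Pool.Agent.Helper879.ECD (F2 f2_add_self)
open Pool.Agent.L7h83.GK

section

variable {W E : Type} [Fintype W] [DecidableEq W] [Fintype E] [DecidableEq E]

/-- the attachment of the old half-edges -/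
def uu (v : E × Bool → W) (h1 h2 : E × Bool) : E × Bool → W ⊕ Unit :=
  fun h => if h = h1 ∨ h = h2 then Sum.inr () else Sum.inl (v h)

/-- the attachment of the new edge -/
def nn (w0 : W) : Unit × Bool → W ⊕ Unit :=
  fun k => if k.2 = false then Sum.inr () else Sum.inl w0

lemma glue_inl (v : E × Bool → W) (h1 h2 : E × Bool) (w0 : W) (e : E) (s : Bool) :
    glue (uu v h1 h2) (nn w0) (Sum.inl e, s) = uu v h1 h2 (e, s) := rfl

lemma glue_inr_false (v : E × Bool → W) (h1 h2 : E × Bool) (w0 : W) (k : Unit) :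
    glue (uu v h1 h2) (nn w0) (Sum.inr k, false) = Sum.inr () := rfl

lemma glue_inr_true (v : E × Bool → W) (h1 h2 : E × Bool) (w0 : W) (k : Unit) :
    glue (uu v h1 h2) (nn w0) (Sum.inr k, true) = Sum.inl w0 := rfl

lemma step_lift (v : E × Bool → W) (h1 h2 : E × Bool) (h12 : v h1 = v h2) (a : E → F2)
    (a' : E ⊕ Unit → F2) (ha : ∀ e, a' (Sum.inl e) = a e) (ha0 : a' (Sum.inr ()) = 0) (e f : E)
    (h : Stp v a e f) :
    Relation.ReflTransGen (Stp (glue (uu v h1 h2) (nn (v h1))) a') (Sum.inl e) (Sum.inl f) := by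
  obtain ⟨hf, s, t, hst⟩ := h
  have haf : a' (Sum.inl f) = 0 := by rw [ha, hf]
  by_cases c1 : (e, s) = h1 ∨ (e, s) = h2
  · have hw : v (e, s) = v h1 := by
      rcases c1 with c | c
      · rw [c]
      · rw [c, h12]
    by_cases c2 : (f, t) = h1 ∨ (f, t) = h2
    · refine Relation.ReflTransGen.single ⟨haf, s, t, ?_⟩
      rw [glue_inl, glue_inl, uu, if_pos c1, uu, if_pos c2]
    · refine Relation.ReflTransGen.head (b := Sum.inr ()) ⟨ha0, s, false, ?_⟩
        (Relation.ReflTransGen.single ⟨haf, true, t, ?_⟩)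
      · rw [glue_inl, glue_inr_false, uu, if_pos c1]
      · rw [glue_inl, glue_inr_true, uu, if_neg c2, ← hst, hw]
  · by_cases c2 : (f, t) = h1 ∨ (f, t) = h2
    · have hw : v (f, t) = v h1 := by
        rcases c2 with c | c
        · rw [c]
        · rw [c, h12]
      refine Relation.ReflTransGen.head (b := Sum.inr ()) ⟨ha0, s, true, ?_⟩
        (Relation.ReflTransGen.single ⟨haf, false, t, ?_⟩)
      · rw [glue_inl, glue_inr_true, uu, if_neg c1, hst, hw]
      · rw [glue_inl, glue_inr_false, uu, if_pos c2]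
    · refine Relation.ReflTransGen.single ⟨haf, s, t, ?_⟩
      rw [glue_inl, glue_inl, uu, if_neg c1, uu, if_neg c2, hst]

lemma sum_new (v : E × Bool → W) (h1 h2 : E × Bool) (hne : h1 ≠ h2) (w0 : W)
    (g : E ⊕ Unit → F2) :
    ∑ h : (E ⊕ Unit) × Bool, (if glue (uu v h1 h2) (nn w0) h = Sum.inr () then g h.1 else 0) =
      g (Sum.inl h1.1) + g (Sum.inl h2.1) + g (Sum.inr ()) := by
  rw [Fintype.sum_prod_type, Fintype.sum_sum_type]
  congr 1
  · have h3 : ∀ e ∈ (univ : Finset E), ∑ s : Bool,
        (if glue (uu v h1 h2) (nn w0) (Sum.inl e, s) = Sum.inr () then g (Sum.inl e)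
            else 0) = ∑ s : Bool, ((if (e, s) = h1 then g (Sum.inl h1.1) else 0) +
              (if (e, s) = h2 then g (Sum.inl h2.1) else 0)) := by
      intro e _
      apply Finset.sum_congr rfl
      intro s _
      rw [glue_inl]
      by_cases c1 : (e, s) = h1
      · have c3 : e = h1.1 := by rw [← c1]
        rw [uu, if_pos (Or.inl c1), if_pos rfl, if_pos c1, if_neg (by rw [c1]; exact hne),
          add_zero, c3]
      · by_cases c2 : (e, s) = h2
        · have c3 : e = h2.1 := by rw [← c2]
          rw [uu, if_pos (Or.inr c2), if_pos rfl, if_neg c1, if_pos c2, zero_add, c3]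
        · rw [uu, if_neg (not_or.2 ⟨c1, c2⟩), if_neg (by simp), if_neg c1, if_neg c2, add_zero]
    rw [Finset.sum_congr rfl h3]
    rw [← Fintype.sum_prod_type (f := fun p : E × Bool =>
      ((if p = h1 then g (Sum.inl h1.1) else 0) + (if p = h2 then g (Sum.inl h2.1) else 0)))]
    rw [Finset.sum_add_distrib]
    simp
  · rw [Fintype.sum_unique, Fintype.sum_bool]
    rw [glue_inr_true, glue_inr_false]
    simp

lemma dg_new (v : E × Bool → W) (h1 h2 : E × Bool) (w0 : W) (m : Unit) :
    dg (glue (uu v h1 h2) (nn w0)) (Sum.inr m) ≤ 3 := by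
  unfold dg
  have : univ.filter (fun h => glue (uu v h1 h2) (nn w0) h = Sum.inr m) ⊆
      ({(Sum.inr (), false), (Sum.inl h1.1, h1.2), (Sum.inl h2.1, h2.2)} :
        Finset ((E ⊕ Unit) × Bool)) := by
    rintro ⟨e, s⟩ he
    rw [Finset.mem_filter] at he
    cases e with
    | inr k =>
      cases s
      · simp
      · exact absurd he.2 (by rw [glue_inr_true]; simp)
    | inl e =>
      have h3 := he.2
      rw [glue_inl, uu] at h3
      split_ifs at h3 with h4
      rcases h4 with h4 | h4
      · simp [← h4]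
      · simp [← h4]
  exact (Finset.card_le_card this).trans Finset.card_le_three

lemma dg_old (v : E × Bool → W) (h1 h2 : E × Bool) (hne : h1 ≠ h2) (h12 : v h1 = v h2) :
    dg (glue (uu v h1 h2) (nn (v h1))) (Sum.inl (v h1)) < dg v (v h1) := by
  unfold dg
  have h3 : univ.filter (fun h => glue (uu v h1 h2) (nn (v h1)) h = Sum.inl (v h1)) ⊆
      insert (Sum.inr (), true) ((((univ.filter (fun h => v h = v h1)).erase h1).erase h2).image
        (fun h => ((Sum.inl h.1, h.2) : (E ⊕ Unit) × Bool))) := by
    rintro ⟨e, s⟩ he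
    rw [Finset.mem_filter] at he
    cases e with
    | inr k =>
      cases s
      · exact absurd he.2 (by rw [glue_inr_false]; simp)
      · simp
    | inl e =>
      have h3 := he.2
      rw [glue_inl, uu] at h3
      split_ifs at h3 with h4
      push Not at h4
      rw [Finset.mem_insert, Finset.mem_image]
      right
      refine ⟨(e, s), ?_, rfl⟩
      rw [Finset.mem_erase, Finset.mem_erase, Finset.mem_filter]
      exact ⟨h4.2, h4.1, Finset.mem_univ _, Sum.inl_injective h3⟩
  have h4 := Finset.card_le_card h3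
  have h5 := Finset.card_insert_le ((Sum.inr (), true) : (E ⊕ Unit) × Bool)
    ((((univ.filter (fun h => v h = v h1)).erase h1).erase h2).image
        (fun h => ((Sum.inl h.1, h.2) : (E ⊕ Unit) × Bool)))
  have h6 : ((((univ.filter (fun h => v h = v h1)).erase h1).erase h2).image
        (fun h => ((Sum.inl h.1, h.2) : (E ⊕ Unit) × Bool))).card ≤
      (((univ.filter (fun h => v h = v h1)).erase h1).erase h2).card := Finset.card_image_le
  have m1 : h1 ∈ univ.filter (fun h => v h = v h1) := by simp
  have m2 : h2 ∈ (univ.filter (fun h => v h = v h1)).erase h1 := by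
    rw [Finset.mem_erase, Finset.mem_filter]
    exact ⟨hne.symm, Finset.mem_univ _, h12.symm⟩
  have e1 := Finset.card_erase_of_mem m1
  have e2 := Finset.card_erase_of_mem m2
  have p1 : 0 < (univ.filter (fun h => v h = v h1)).card := Finset.card_pos.2 ⟨_, m1⟩
  have p2 : 0 < ((univ.filter (fun h => v h = v h1)).erase h1).card := Finset.card_pos.2 ⟨_, m2⟩
  omega

end

/-- [ST1] -/
theorem s_ST1 (hEXP : S_EXP) : S_ST1 := by
  intro W E _ _ _ _ v A R hH h1 h2 hne h12 hdg h0 hi
  obtain ⟨hfl, hnz, hR, hch⟩ := hH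
  obtain ⟨i0, hi0⟩ := hi
  obtain ⟨F1, F2', F3⟩ := hEXP W E Unit Unit v (v h1) (uu v h1 h2) (nn (v h1))
    (by
      intro h
      unfold uu col
      split_ifs with hc
      · rcases hc with hc | hc
        · rw [hc]; rfl
        · rw [hc]; exact h12
      · rfl)
    (by
      intro k
      unfold nn col
      split_ifs <;> rfl)
  let A' : Fin 3 → E ⊕ Unit → F2 := fun i => Sum.elim (A i) (fun _ => A i h1.1 + A i h2.1)
  have hA0 : A' 0 (Sum.inr ()) = 0 := by
    change A 0 h1.1 + A 0 h2.1 = 0
    rw [h0]
    exact f2_add_self _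
  refine ⟨W ⊕ Unit, E ⊕ Unit, inferInstance, inferInstance, inferInstance, inferInstance,
    glue (uu v h1 h2) (nn (v h1)), A', Sum.elim R (fun _ => False), ⟨?_, ?_, ?_, ?_⟩,
    F3 (dg_new v h1 h2 (v h1)) hdg (dg_old v h1 h2 hne h12), ?_⟩
  · intro i
    refine F2' (A' i) (hfl i) ?_
    intro m
    rw [show (Sum.inr m : W ⊕ Unit) = Sum.inr () from rfl, sum_new v h1 h2 hne]
    exact f2_add_self _
  · intro e
    cases e with
    | inl e => exact hnz e
    | inr k =>
      have h3 : A' i0 (Sum.inr k) ≠ 0 := fun h => hi0 (f2_eq_of_add h)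
      fin_cases i0
      · exact Or.inl h3
      · exact Or.inr (Or.inl h3)
      · exact Or.inr (Or.inr h3)
  · intro e he
    cases e with
    | inl e => exact hR e he
    | inr k => exact he.elim
  · intro e f he hf
    cases e with
    | inr k => exact he.elim
    | inl e =>
      cases f with
      | inr k => exact hf.elim
      | inl f =>
        have key : ∀ e f : E, Relation.ReflTransGen (Stp v (A 0)) e f →
            Relation.ReflTransGen (Stp (glue (uu v h1 h2) (nn (v h1))) (A' 0))
              (Sum.inl e) (Sum.inl f) := by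
          intro e f hef
          induction hef with
          | refl => exact Relation.ReflTransGen.refl
          | tail _ hs ih =>
            exact ih.trans (step_lift v h1 h2 h12 (A 0) (A' 0) (fun _ => rfl) hA0 _ _ hs)
        exact key e f (hch e f he hf)
  · rintro ⟨S, P, hP, hS2, hSfl, hSR, hSa⟩
    exact ⟨fun e => S (Sum.inl e), P, hP, fun e => hS2 _, fun c => F1 _ (hSfl c),
      fun e he => hSR (Sum.inl e) he, fun e he => hSa (Sum.inl e) he⟩

end Pool.Agent.L7h73.GK
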